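import Pool.Agent.H698.HF.Core
import Pool.Graph.R_seed8.H587R2.MRA.Final

set_option autoImplicit false

/-! # Matrix-vector products over the field with two elements and circuits with unknown inputs
(helper698) -/

open scoped Classical
open Finset

namespace Pool.Agent.H698.UX

open Pool.Agent.H698.HF
open Pool.Agent.H587R2.MRA

/-- the knowledge about the vectors: the entries with `v j k = true` are unknown and the other
entries are known to be zero -/
def zeros {n : ℕ} (v : Fin n → Fin n → Bool) : Know (Fin n × Fin n) :=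
  fun e => if v e.1 e.2 = true then none else some false

/-- the randomised circuit `l`, which has the form `l ω` with probability `p ω`, computes every
single entry of the products over the field with two elements with advantage `δ`: there are output
gates `out ω i j` and disjoint upper sets `one ω`, `zero ω` of the values that mean that the entry is
one and that the entry is zero, such that, for every knowledge `P` about the vectors in which all
entries `k` of the vector `j` with `M i k = true` are known (the others may be unknown), the value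
of the gate `out ω i j` is in `one ω` or `zero ω` if the entry number `i` of `M v_j` is one or zero,
with probability at least `1 / 2 + δ` -/
def SolvesX {n : ℕ} (M : Fin n → Fin n → Bool) (δ : ℝ) {D : Type} [PartialOrder D]
    {Ω : Type} [Fintype Ω] (p : Ω → ℝ) (l : Ω → List (Know (Fin n × Fin n) → D)) : Prop :=
  (∀ ω, 0 ≤ p ω) ∧ ∑ ω, p ω = 1 ∧
  ∃ (out : Ω → Fin n → Fin n → Know (Fin n × Fin n) → D) (one zero : Ω → Set D),
    (∀ ω i j, out ω i j ∈ l ω) ∧
    (∀ ω, IsUpperSet (one ω) ∧ IsUpperSet (zero ω) ∧ Disjoint (one ω) (zero ω)) ∧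
    ∀ (P : Know (Fin n × Fin n)) (i j : Fin n), (∀ k, M i k = true → P (j, k) ≠ none) →
      (Odd (univ.filter fun k => M i k = true ∧ P (j, k) = some true).card →
        1 / 2 + δ ≤ ∑ ω ∈ univ.filter (fun ω => out ω i j P ∈ one ω), p ω) ∧
      (Even (univ.filter fun k => M i k = true ∧ P (j, k) = some true).card →
        1 / 2 + δ ≤ ∑ ω ∈ univ.filter (fun ω => out ω i j P ∈ zero ω), p ω)

section

variable {n : ℕ} {D : Type} [PartialOrder D]

theorem zeros_le (v : Fin n → Fin n → Bool) : Le (zeros v) (zeros fun _ _ => false) := by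
  intro e
  unfold zeros
  by_cases h : v e.1 e.2 = true
  · left; rw [if_pos h]
  · right; rw [if_neg h]; simp

/-- the content of a register with the (reversed) value of the gate `g` -/
def Rep (A : Set D) (g : Know (Fin n × Fin n) → D) (w : (Fin n → Fin n → Bool) → ℝ) : Prop :=
  (∀ v v', g (zeros v') ≤ g (zeros v) ↔ w v ≤ w v') ∧
    ∀ v, g (zeros v) ∉ A ↔ 0 < w v

/-- the gates of the list are simulated by a straight-line program with monotone real gates -/
def Sim (A : Set D) (l : List (Know (Fin n × Fin n) → D)) : Prop :=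
  ∃ (pre : Prog n → Prog n) (st : State n → State n) (c N : ℕ), c ≤ 2 * l.length ∧
    (∀ P, (pre P).leaves = P.leaves) ∧ (∀ P s, (pre P).cost s = c + P.cost (st s)) ∧
    (∀ P s, (pre P).answer s = P.answer (st s)) ∧
    (∀ v e, st (initial v) (Sum.inl e) = initial v (Sum.inl e)) ∧
    ∀ g ∈ l, ∃ q < N, Rep A g (fun v => st (initial v) (Sum.inr q))

theorem Sim.cons {A : Set D} {l : List (Know (Fin n × Fin n) → D)} (g' : Know (Fin n × Fin n) → D)
    (h : ∀ (st : State n → State n), (∀ v e, st (initial v) (Sum.inl e) = initial v (Sum.inl e)) →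
      (∀ g ∈ l, ∃ q : ℕ, Rep A g (fun v => st (initial v) (Sum.inr q))) →
      ∃ (k : ℕ) (src : Fin k → Reg n) (f : (Fin k → ℝ) → ℝ), k ≤ 2 ∧ Monotone f ∧
        Rep A g' (fun v => f fun a => st (initial v) (src a)))
    (hs : Sim A l) : Sim A (g' :: l) := by
  obtain ⟨pre, st, c, N, h1, h2, h3, h4, h5, h6⟩ := hs
  obtain ⟨k, src, f, hk, hf, hr⟩ := h st h5 (fun g hg => by
    obtain ⟨q, -, hq⟩ := h6 g hg
    exact ⟨q, hq⟩)
  refine ⟨fun P => pre (Prog.gate k src f hf (Sum.inr N) P),
    fun s => Function.update (st s) (Sum.inr N) (f fun a => st s (src a)), c + k, N + 1, ?_,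
    ?_, ?_, ?_, ?_, ?_⟩
  · rw [List.length_cons]; omega
  · intro P
    rw [h2]; rfl
  · intro P s
    rw [h3]
    show c + (k + _) = _
    ring
  · intro P s
    rw [h4]; rfl
  · intro v e
    dsimp only
    rw [Function.update_of_ne (by simp), h5]
  · intro g hg
    rcases List.mem_cons.1 hg with rfl | hg
    · refine ⟨N, Nat.lt_succ_self N, ?_⟩
      have : (fun v => Function.update (st (initial v)) (Sum.inr N)
          (f fun a => st (initial v) (src a)) (Sum.inr N)) =
          fun v => f fun a => st (initial v) (src a) := by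
        funext v; rw [Function.update_self]
      dsimp only
      rw [this]
      exact hr
    · obtain ⟨q, hq, g1⟩ := h6 g hg
      have hne : (Sum.inr q : Reg n) ≠ Sum.inr N := by
        intro h
        have : q = N := Sum.inr.inj h
        omega
      refine ⟨q, by omega, ?_⟩
      have : (fun v => Function.update (st (initial v)) (Sum.inr N)
          (f fun a => st (initial v) (src a)) (Sum.inr q)) =
          fun v => st (initial v) (Sum.inr q) := by
        funext v; rw [Function.update_of_ne hne]
      dsimp only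
      rw [this]
      exact g1

theorem shift_mono : StrictMono fun t : ℝ => if 1 ≤ t then t + 4 else t - 4 := by
  intro x y hxy
  dsimp only
  split_ifs <;> linarith

theorem shift_neg (t : ℝ) : 0 < -(if 1 ≤ t then t + 4 else t - 4) ↔ ¬ 1 ≤ t := by
  split_ifs with h
  · exact ⟨fun h' => by linarith, fun h' => absurd h h'⟩
  · exact ⟨fun _ => h, fun _ => by linarith⟩

theorem rep_gate (hD : TreeLike D) (A : Set D) (hA : IsUpperSet A)
    (φ : D → D → D) (hφ : ∀ a a' b b', a ≤ a' → b ≤ b' → φ a b ≤ φ a' b')
    {g1 g2 : Know (Fin n × Fin n) → D} (m1 : ∀ P Q, Le P Q → g1 P ≤ g1 Q)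
    (m2 : ∀ P Q, Le P Q → g2 P ≤ g2 Q)
    {w1 w2 : (Fin n → Fin n → Bool) → ℝ}
    (h1 : ∀ v v', g1 (zeros v') ≤ g1 (zeros v) ↔ w1 v ≤ w1 v')
    (h2 : ∀ v v', g2 (zeros v') ≤ g2 (zeros v) ↔ w2 v ≤ w2 v') :
    ∃ Φ : ℝ → ℝ → ℝ, (∀ a a' b b', a ≤ a' → b ≤ b' → Φ a b ≤ Φ a' b') ∧
      Rep A (fun P => φ (g1 P) (g2 P)) (fun v => Φ (w1 v) (w2 v)) := by
  obtain ⟨Φ, hΦ1, hΦ2, hΦ3⟩ := sim_gate hD A hA φ hφ
    (fun v : Fin n → Fin n → Bool => g1 (zeros v))
    (fun v : Fin n → Fin n → Bool => g2 (zeros v))
    (g1 (zeros fun _ _ => false)) (g2 (zeros fun _ _ => false))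
    (fun v => m1 _ _ (zeros_le v)) (fun v => m2 _ _ (zeros_le v)) (fun v => -w1 v)
    (fun v => -w2 v)
    (fun v v' => by rw [h1 v' v]; exact neg_le_neg_iff.symm)
    (fun v v' => by rw [h2 v' v]; exact neg_le_neg_iff.symm)
  refine ⟨fun a b => -(if 1 ≤ Φ (-a) (-b) then Φ (-a) (-b) + 4 else Φ (-a) (-b) - 4), ?_, ?_, ?_⟩
  · intro a a' b b' ha hb
    exact neg_le_neg (shift_mono.monotone
      (hΦ1 _ _ _ _ (neg_le_neg ha) (neg_le_neg hb)))
  · intro v v'
    rw [show (((fun P => φ (g1 P) (g2 P)) (zeros v') ≤
      (fun P => φ (g1 P) (g2 P)) (zeros v)) ↔ _) from hΦ2 v' v]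
    exact (shift_mono.le_iff_le.symm.trans neg_le_neg_iff.symm)
  · intro v
    have h := hΦ3 v
    rw [show ((fun P => φ (g1 P) (g2 P)) (zeros v) ∉ A ↔ _) from not_congr h]
    exact (shift_neg _).symm

theorem sim_of_circ (hD : TreeLike D) (A : Set D) (hA : IsUpperSet A)
    {l : List (Know (Fin n × Fin n) → D)} (hl : Circ l) : Sim A l := by
  induction hl with
  | nil =>
    exact ⟨id, id, 0, 0, by simp, fun P => rfl, fun P s => by simp, fun P s => rfl,
      fun v e => rfl, fun g hg => absurd hg (by simp)⟩
  | @input l e i hl hi ih =>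
    refine ih.cons _ fun st hst _ => ?_
    have hz : ∀ v : Fin n → Fin n → Bool, zeros v e = if v e.1 e.2 = true then none
      else some false := fun v => rfl
    by_cases hlt : i (some false) ≤ i none
    · have hc : ∀ v : Fin n → Fin n → Bool, i (zeros v e) = i none := by
        intro v
        rw [hz]
        split_ifs
        · rfl
        · exact le_antisymm hlt (hi false)
      refine ⟨0, Fin.elim0, fun _ => if i none ∈ A then -1 else 1, by omega,
        fun _ _ _ => le_rfl, ?_, ?_⟩
      · intro v v'
        simp only [hc, le_refl]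
      · intro v
        simp only [hc]
        split_ifs with h
        · simp only [h, not_true_eq_false, false_iff]; norm_num
        · simp [h]
    · have hw : ∀ v v' : Fin n → Fin n → Bool, i (zeros v' e) ≤ i (zeros v e) ↔
          (initial v (Sum.inl e) : ℝ) ≤ initial v' (Sum.inl e) := by
        intro v v'
        have e1 : ∀ z : Fin n → Fin n → Bool, (initial z (Sum.inl e) : ℝ) =
          if z e.1 e.2 = true then 1 else 0 := by
          intro z
          rcases e with ⟨j, k⟩
          rfl
        rw [e1, e1, hz, hz]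
        by_cases hx : v e.1 e.2 = true <;> by_cases hy : v' e.1 e.2 = true
        · simp [hx, hy]
        · simp only [hx, hy, if_true, if_false]
          constructor
          · intro h; exact absurd h hlt
          · intro h; norm_num at h
        · simp only [hx, hy, if_true, if_false]
          constructor
          · intro _; norm_num
          · intro _; exact hi false
        · simp [hx, hy]
      have hm : ∀ P Q : Know (Fin n × Fin n), Le P Q → i (P e) ≤ i (Q e) := by
        intro P Q h
        rcases h e with h | h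
        · rw [h]
          cases hq : Q e with
          | none => exact le_rfl
          | some b => exact hi b
        · rw [h]
      obtain ⟨Φ, hΦ1, hΦ2⟩ := rep_gate hD A hA (fun s _ => s) (fun _ _ _ _ h _ => h)
        (g1 := fun P => i (P e)) (g2 := fun P => i (P e)) hm hm hw hw
      refine ⟨1, fun _ => Sum.inl e, fun x => Φ (x 0) (x 0), by omega,
        fun x y hxy => hΦ1 _ _ _ _ (hxy 0) (hxy 0), ?_⟩
      have e2 : (fun v : Fin n → Fin n → Bool => Φ (st (initial v) (Sum.inl e))
          (st (initial v) (Sum.inl e))) = fun v => Φ (initial v (Sum.inl e))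
          (initial v (Sum.inl e)) := by
        funext v; rw [hst]
      show Rep A _ (fun v : Fin n → Fin n → Bool => Φ (st (initial v) (Sum.inl e))
          (st (initial v) (Sum.inl e)))
      rw [e2]
      exact hΦ2
  | @const l c hl ih =>
    refine ih.cons _ fun st hst _ => ?_
    refine ⟨0, Fin.elim0, fun _ => if c ∈ A then -1 else 1, by omega,
      fun _ _ _ => le_rfl, ?_, ?_⟩
    · intro v v'
      simp only [le_refl]
    · intro v
      split_ifs with h
      · simp only [h, not_true_eq_false, false_iff]; norm_num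
      · simp [h]
  | @gate l φ f g' hl hφ hf hg' ih =>
    refine ih.cons _ fun st hst hreg => ?_
    obtain ⟨q1, hq1⟩ := hreg f hf
    obtain ⟨q2, hq2⟩ := hreg g' hg'
    obtain ⟨Φ, hΦ1, hΦ2⟩ := rep_gate hD A hA φ hφ (hl.mono f hf) (hl.mono g' hg') hq1.1 hq2.1
    exact ⟨2, ![Sum.inr q1, Sum.inr q2], fun x => Φ (x 0) (x 1), le_rfl,
      fun x y hxy => hΦ1 _ _ _ _ (hxy 0) (hxy 1), hΦ2⟩

theorem prog_of_circ (hD : TreeLike D) (A : Set D) (hA : IsUpperSet A)
    {l : List (Know (Fin n × Fin n) → D)} (hl : Circ l)
    (out : Fin n → Fin n → Know (Fin n × Fin n) → D) (hout : ∀ i j, out i j ∈ l) :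
    ∃ P : Prog n, P.leaves = 1 ∧ (∀ s, P.cost s ≤ 2 * l.length) ∧
      ∀ v i j, 0 < P.answer (initial v) i j ↔ out i j (zeros v) ∉ A := by
  obtain ⟨pre, st, c, N, h1, h2, h3, h4, h5, h6⟩ := sim_of_circ hD A hA hl
  have h7 : ∀ i j, ∃ q : ℕ, ∀ v, out i j (zeros v) ∉ A ↔
      0 < st (initial v) (Sum.inr q) := by
    intro i j
    obtain ⟨q, -, hq⟩ := h6 _ (hout i j)
    exact ⟨q, hq.2⟩
  choose q hq using h7
  refine ⟨pre (Prog.stop fun i j => Sum.inr (q i j)), ?_, ?_, ?_⟩
  · rw [h2]; rfl
  · intro s
    rw [h3]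
    show c + 0 ≤ _
    omega
  · intro v i j
    rw [h4]
    exact (hq i j v).symm

/-- the lower bound -/
theorem lowerX (hD : TreeLike D) {M : Fin n → Fin n → Bool} {δ : ℝ}
    (hδ : 32 * Real.logb 2 n ≤ δ * n)
    (hM : ∀ (m : ℕ) (δ : ℝ), 32 * m * Real.logb 2 n ≤ δ * n →
        ∀ (Ω : Type) [Fintype Ω] (p : Ω → ℝ) (P : Ω → Prog n), Solves M δ p P →
          (∀ ω, (P ω).leaves ≤ m) →
          ∃ v : Fin n → Fin n → Bool,
            δ ^ 2 * (n : ℝ) ^ 3 ≤ 384 * m * Real.logb 2 n ^ 2 * expCost p P v)
    {Ω : Type} [Fintype Ω] (p : Ω → ℝ) (l : Ω → List (Know (Fin n × Fin n) → D))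
    (hl : ∀ ω, Circ (l ω)) (hs : SolvesX M δ p l) :
    δ ^ 2 * (n : ℝ) ^ 3 ≤ 768 * Real.logb 2 n ^ 2 * ∑ ω, p ω * (l ω).length := by
  obtain ⟨hp, hp1, out, one, zero, h1, h2, h3⟩ := hs
  have hP := fun ω => prog_of_circ hD (zero ω) (h2 ω).2.1 (hl ω) (out ω) (h1 ω)
  choose P g1 g2 g3 using hP
  have hsol : Solves M δ p P := by
    refine ⟨hp, hp1, fun v i j => ?_⟩
    by_cases hk : ∃ k, M i k = true ∧ v j k = true
    · obtain ⟨k0, hk0, hk1⟩ := hk
      set P' : Know (Fin n × Fin n) := fun e => some (decide (e = (j, k0))) with hP'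
      have hle : Le (zeros v) P' := by
        intro e
        unfold zeros
        by_cases h : v e.1 e.2 = true
        · left; rw [if_pos h]
        · right
          rw [if_neg h, hP']
          have : e ≠ (j, k0) := by
            rintro rfl
            exact h hk1
          simp [this]
      have hodd : Odd (univ.filter fun k => M i k = true ∧ P' (j, k) = some true).card := by
        have : (univ.filter fun k => M i k = true ∧ P' (j, k) = some true) = {k0} := by
          ext k
          rw [mem_filter, mem_singleton, hP']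
          constructor
          · rintro ⟨-, -, h⟩
            simpa using h
          · rintro rfl
            exact ⟨mem_univ _, hk0, by simp⟩
        rw [this, card_singleton]
        exact odd_one
      refine ((h3 P' i j (fun k _ => by simp [hP'])).1 hodd).trans
        (sum_le_sum_of_subset_of_nonneg ?_ fun ω _ _ => hp ω)
      intro ω hω
      rw [mem_filter] at hω ⊢
      refine ⟨hω.1, ?_⟩
      unfold Prog.Right
      rw [g3]
      refine ⟨fun _ => ⟨k0, hk0, hk1⟩, fun _ hz => ?_⟩
      have := (h2 ω).2.1 ((hl ω).mono _ (h1 ω i j) _ _ hle) hz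
      exact Set.disjoint_left.1 (h2 ω).2.2 hω.2 this
    · have heven : Even (univ.filter fun k => M i k = true ∧ zeros v (j, k) = some true).card := by
        have : (univ.filter fun k => M i k = true ∧ zeros v (j, k) = some true) = ∅ := by
          ext k
          rw [mem_filter]
          simp only [zeros, notMem_empty, iff_false, not_and]
          intro _ _ h
          split_ifs at h
          simp at h
        rw [this, card_empty]
        exact ⟨0, rfl⟩
      refine ((h3 (zeros v) i j ?_).2 heven).trans
        (sum_le_sum_of_subset_of_nonneg ?_ fun ω _ _ => hp ω)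
      · intro k hk' h
        unfold zeros at h
        split_ifs at h with h'
        exact hk ⟨k, hk', h'⟩
      · intro ω hω
        rw [mem_filter] at hω ⊢
        refine ⟨hω.1, ?_⟩
        unfold Prog.Right
        rw [g3]
        exact ⟨fun h => absurd hω.2 h, fun h => absurd h hk⟩
  obtain ⟨v, hv⟩ := hM 1 δ (by push_cast; linarith) Ω p P hsol (fun ω => (g1 ω).le)
  refine hv.trans ?_
  have hcost : expCost p P v ≤ ∑ ω, p ω * (2 * (l ω).length) := by
    unfold expCost
    refine sum_le_sum fun ω _ => mul_le_mul_of_nonneg_left ?_ (hp ω)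
    exact_mod_cast g2 ω (initial v)
  have e1 : ∑ ω, p ω * (2 * ((l ω).length : ℝ)) = 2 * ∑ ω, p ω * (l ω).length := by
    rw [mul_sum]
    exact sum_congr rfl fun ω _ => by ring
  rw [e1] at hcost
  have e2 : (0 : ℝ) ≤ Real.logb 2 n ^ 2 := sq_nonneg _
  push_cast
  nlinarith [mul_le_mul_of_nonneg_left hcost e2]

end

end Pool.Agent.H698.UX
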