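import Pool.Agent.H698.UX.Sim

set_option autoImplicit false

/-! # The naive circuits for products over the field with two elements with unknown inputs
(helper698) -/

open scoped Classical
open Finset

namespace Pool.Agent.H698.UX

open Pool.Agent.H698.HF
open Flat (unknown known)

/-- the three-valued sum modulo two -/
def kxor : Flat Bool → Flat Bool → Flat Bool
  | known a, known b => known (xor a b)
  | _, _ => unknown

theorem kxor_mono (x x' y y' : Flat Bool) (hx : x ≤ x') (hy : y ≤ y') :
    kxor x y ≤ kxor x' y' := by
  rw [Flat.le_iff] at hx hy ⊢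
  rcases hx with rfl | rfl
  · left; rfl
  · rcases hy with rfl | rfl
    · left; rcases x with _ | a <;> rfl
    · right; rfl

/-- the translation of a bit -/
def inp : Option Bool → Flat Bool
  | none => unknown
  | some b => known b

variable {n : ℕ}

/-- the sum over the list of coordinates -/
def val (M : Fin n → Fin n → Bool) (i j : Fin n) :
    List (Fin n) → Know (Fin n × Fin n) → Flat Bool
  | [], _ => known false
  | k :: ks, P => if M i k = true then kxor (inp (P (j, k))) (val M i j ks P) else val M i j ks P

theorem val_known (M : Fin n → Fin n → Bool) (i j : Fin n) (P : Know (Fin n × Fin n)) :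
    ∀ ks : List (Fin n), (∀ k ∈ ks, M i k = true → P (j, k) ≠ none) →
      val M i j ks P = known (decide (Odd
        ((ks.filter fun k => M i k = true ∧ P (j, k) = some true).length)))
  | [], _ => by simp [val]
  | k :: ks, h => by
    have ih := val_known M i j P ks (fun k' hk' => h k' (List.mem_cons_of_mem _ hk'))
    unfold val
    split_ifs with hM
    · rw [ih]
      have h1 := h k List.mem_cons_self hM
      rcases hP : P (j, k) with _ | b
      · exact absurd hP h1
      · rcases b with _ | _
        · simp [inp, kxor, List.filter_cons, hM, hP]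
        · simp only [inp, kxor, List.filter_cons, hM, hP, and_self, decide_true, if_true,
            List.length_cons, Bool.true_xor]
          congr 1
          generalize (List.filter
            (fun k => decide (M i k = true ∧ P (j, k) = some true)) ks).length = m
          simp only [Nat.odd_add_one, decide_not]
    · rw [ih]
      simp [List.filter_cons, hM]

theorem exists_inputs (es : List (Fin n × Fin n)) :
    ∃ l : List (Know (Fin n × Fin n) → Flat Bool), Circ l ∧ l.length = es.length ∧
      ∀ e ∈ es, (fun P : Know (Fin n × Fin n) => inp (P e)) ∈ l := by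
  induction es with
  | nil => exact ⟨[], Circ.nil, rfl, by simp⟩
  | cons e es ih =>
    obtain ⟨l, h1, h2, h3⟩ := ih
    refine ⟨_, Circ.input e inp h1 (fun b => Or.inl rfl), by simp [h2], ?_⟩
    intro e' he'
    rcases List.mem_cons.1 he' with rfl | he'
    · exact List.mem_cons_self
    · exact List.mem_cons_of_mem _ (h3 e' he')

theorem exists_chain (M : Fin n → Fin n → Bool) (i j : Fin n)
    {l : List (Know (Fin n × Fin n) → Flat Bool)} (hl : Circ l)
    (h0 : (fun _ : Know (Fin n × Fin n) => known false) ∈ l)
    (h1 : ∀ e, (fun P : Know (Fin n × Fin n) => inp (P e)) ∈ l) (ks : List (Fin n)) :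
    ∃ l', Circ l' ∧ (∀ g ∈ l, g ∈ l') ∧ l'.length ≤ l.length + ks.length ∧
      val M i j ks ∈ l' := by
  induction ks with
  | nil => exact ⟨l, hl, fun g hg => hg, by simp, h0⟩
  | cons k ks ih =>
    obtain ⟨l', g1, g2, g3, g4⟩ := ih
    by_cases hM : M i k = true
    · refine ⟨_, Circ.gate g1 kxor_mono (g2 _ (h1 (j, k))) g4,
        fun g hg => List.mem_cons_of_mem _ (g2 g hg), ?_, ?_⟩
      · simp only [List.length_cons]; omega
      · have : val M i j (k :: ks) = fun P => kxor (inp (P (j, k))) (val M i j ks P) := by
          funext P; simp [val, hM]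
        rw [this]
        exact List.mem_cons_self
    · refine ⟨l', g1, g2, ?_, ?_⟩
      · simp only [List.length_cons]; omega
      · have : val M i j (k :: ks) = val M i j ks := by
          funext P; simp [val, hM]
        rw [this]
        exact g4

theorem exists_all (M : Fin n → Fin n → Bool)
    {l : List (Know (Fin n × Fin n) → Flat Bool)} (hl : Circ l)
    (h0 : (fun _ : Know (Fin n × Fin n) => known false) ∈ l)
    (h1 : ∀ e, (fun P : Know (Fin n × Fin n) => inp (P e)) ∈ l)
    (ks : List (Fin n)) (es : List (Fin n × Fin n)) :
    ∃ l', Circ l' ∧ (∀ g ∈ l, g ∈ l') ∧ l'.length ≤ l.length + es.length * ks.length ∧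
      ∀ e ∈ es, val M e.1 e.2 ks ∈ l' := by
  induction es with
  | nil => exact ⟨l, hl, fun g hg => hg, by simp, by simp⟩
  | cons e es ih =>
    obtain ⟨l', g1, g2, g3, g4⟩ := ih
    obtain ⟨l'', k1, k2, k3, k4⟩ := exists_chain M e.1 e.2 g1 (g2 _ h0) (fun e => g2 _ (h1 e)) ks
    refine ⟨l'', k1, fun g hg => k2 g (g2 g hg), ?_, ?_⟩
    · simp only [List.length_cons]
      have : (es.length + 1) * ks.length = es.length * ks.length + ks.length := by ring
      omega
    · intro e' he'
      rcases List.mem_cons.1 he' with rfl | he'
      · exact k4
      · exact k2 _ (g4 e' he')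

theorem upper_known (b : Bool) : IsUpperSet ({known b} : Set (Flat Bool)) := by
  intro x y hxy hx
  rw [Set.mem_singleton_iff] at hx ⊢
  rw [hx, Flat.le_iff] at hxy
  rcases hxy with h | h
  · exact absurd h (by simp)
  · exact h.symm

/-- the naive three-valued circuit -/
theorem upperX (hn : 2 ≤ n) (M : Fin n → Fin n → Bool) :
    ∃ l : List (Know (Fin n × Fin n) → Flat Bool), Circ l ∧ l.length ≤ 2 * n ^ 3 ∧
      SolvesX M (1 / 2) (fun _ : Unit => 1) (fun _ => l) := by
  obtain ⟨l0, a1, a2, a3⟩ := exists_inputs (n := n) (univ : Finset (Fin n × Fin n)).toList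
  have b1 : Circ ((fun _ : Know (Fin n × Fin n) => known false) :: l0) := Circ.const _ a1
  obtain ⟨l, c1, c2, c3, c4⟩ := exists_all M b1 List.mem_cons_self
    (fun e => List.mem_cons_of_mem _ (a3 e (by simp))) (univ : Finset (Fin n)).toList
    (univ : Finset (Fin n × Fin n)).toList
  have hmem : ∀ i j : Fin n, val M i j (univ : Finset (Fin n)).toList ∈ l :=
    fun i j => c4 (i, j) (by simp)
  have hsem : ∀ (P : Know (Fin n × Fin n)) (i j : Fin n), (∀ k, M i k = true → P (j, k) ≠ none) →
      val M i j (univ : Finset (Fin n)).toList P = known (decide (Odd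
        ((univ.filter fun k => M i k = true ∧ P (j, k) = some true).card))) := by
    intro P i j h
    rw [val_known M i j P _ (fun k _ => h k)]
    congr 2
    have : ((univ : Finset (Fin n)).toList.filter
        fun k => M i k = true ∧ P (j, k) = some true).length =
        (univ.filter fun k => M i k = true ∧ P (j, k) = some true).card := by
      rw [← List.toFinset_card_of_nodup ((nodup_toList _).filter _)]
      congr 1
      ext k
      simp
    rw [this]
  refine ⟨l, c1, ?_, ?_⟩
  · rw [List.length_cons, a2, length_toList, length_toList, card_univ, card_univ,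
      Fintype.card_prod, Fintype.card_fin] at c3
    nlinarith [Nat.mul_le_mul hn (Nat.mul_self_le_mul_self hn)]
  · refine ⟨fun _ => zero_le_one, by simp, fun _ i j => val M i j (univ : Finset (Fin n)).toList,
      fun _ => {known true}, fun _ => {known false}, fun _ => hmem,
      fun _ => ⟨upper_known true, upper_known false, ?_⟩, ?_⟩
    · rw [Set.disjoint_singleton]
      simp
    · intro P i j hP
      have h := hsem P i j hP
      constructor
      · intro hodd
        rw [filter_true_of_mem (fun _ _ => by
          rw [Set.mem_singleton_iff]; dsimp only; rw [h]; simp [hodd])]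
        norm_num
      · intro heven
        have hodd := Nat.not_odd_iff_even.2 heven
        rw [filter_true_of_mem (fun _ _ => by
          rw [Set.mem_singleton_iff]; dsimp only; rw [h]; simp [hodd])]
        norm_num

end Pool.Agent.H698.UX
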